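import Pool.Agent.Q107.Bn.Spanning

/-!
# `i_bn(G)` is the minimum of `i_bn(T)` over the spanning trees `T` of `G`

The definitions `ecc`, `IsBroadcast`, `Hears`, `IsBnIndep`, `IsMaximalBn` and `iBn` are in
`Pool.Agent.Q107.Bn.Defs`.
-/

set_option autoImplicit false

namespace Pool.Agent.Results.MP_7de179_co.SpanningTrees

open Q107.Bn

/-- For every finite connected graph `G`, `i_bn(G)` is the least element of the set of the numbers
`i_bn(T)`, where `T` runs through the spanning trees of `G`. -/
theorem result (V : Type) [Fintype V] (G : SimpleGraph V) (hG : G.Connected) :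
    IsLeast {k | ∃ T : SimpleGraph V, T ≤ G ∧ T.IsTree ∧ iBn T = k} (iBn G) :=
  iBn_isLeast hG

end Pool.Agent.Results.MP_7de179_co.SpanningTrees
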